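import Pool.Agent.Q136.LocStr

/-!
# Stable local structure does not imply strongly stable local structure

Over every field with a nonzero element of infinite multiplicative order there is a
two-dimensional local system on the crown poset `{a, a' < b, b'}` whose local structure is stable
but not strongly stable.
-/

namespace Pool.Agent.Results.MP_0548d2_gt.CrownHolonomy

open CategoryTheory Pool.Agent.Q136.LocStr

theorem result : ∀ (k : Type) [Field k], (∃ t : k, t ≠ 0 ∧ ∀ n : ℕ, 0 < n → t ^ n ≠ 1) →
    ∃ (C : Type) (_ : PartialOrder C) (M : C ⥤ ModuleCat.{0} k),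
      Finite C ∧ IsConnected C ∧ (∀ x : C, FiniteDimensional k (M.obj x)) ∧
      Stable M ∧ ¬ StronglyStable M := by
  intro k _ h
  obtain ⟨t, ht, ht'⟩ := h
  refine ⟨Crown, inferInstance, crownModule t, inferInstance, inferInstance, fun x => ?_,
    stable_crown t ht, not_stronglyStable_crown t ht ht'⟩
  exact inferInstanceAs (FiniteDimensional k (Fin 2 → k))

end Pool.Agent.Results.MP_0548d2_gt.CrownHolonomy
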